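import Pool.Agent.Lib.MP_d9512b_co.Cub.Defs

set_option autoImplicit false
set_option linter.unusedSectionVars false

/-!
Numbers of edges between sets of vertices, 2-edge-connected sets.
-/

namespace Pool.Agent.Lib.MP_d9512b_co

open Set

variable {V : Type*} [Finite V] {G : SimpleGraph V} {A A' B B' C D F P Q U W X : Set V}
  {u v w x y z : V}

/-! ### Counting edges -/

theorem ec_symm (G : SimpleGraph V) (A B : Set V) : ec G A B = ec G B A := by
  unfold ec
  refine ncard_congr (fun p _ => (p.2, p.1)) ?_ ?_ ?_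
  · rintro ⟨a, b⟩ ⟨h1, h2, h3⟩
    exact ⟨h2, h1, h3.symm⟩
  · rintro ⟨a, b⟩ ⟨c, d⟩ _ _ h
    simp only [Prod.mk.injEq] at h
    exact Prod.ext h.2 h.1
  · rintro ⟨a, b⟩ ⟨h1, h2, h3⟩
    exact ⟨(b, a), ⟨h2, h1, h3.symm⟩, rfl⟩

theorem ec_mono (hA : A ⊆ A') (hB : B ⊆ B') : ec G A B ≤ ec G A' B' :=
  ncard_le_ncard (fun _ h => ⟨hA h.1, hB h.2.1, h.2.2⟩) (toFinite _)

theorem ec_mono_left (hA : A ⊆ A') : ec G A B ≤ ec G A' B := ec_mono hA Subset.rfl

theorem ec_mono_right (hB : B ⊆ B') : ec G A B ≤ ec G A B' := ec_mono Subset.rfl hB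

@[simp] theorem ec_empty_left : ec G ∅ B = 0 := by
  unfold ec
  have : {p : V × V | p.1 ∈ (∅ : Set V) ∧ p.2 ∈ B ∧ G.Adj p.1 p.2} = ∅ := by
    ext p
    simp
  rw [this, ncard_empty]

@[simp] theorem ec_empty_right : ec G A ∅ = 0 := by
  rw [ec_symm, ec_empty_left]

theorem ec_union_left (h : Disjoint A A') : ec G (A ∪ A') B = ec G A B + ec G A' B := by
  unfold ec
  rw [← ncard_union_eq _ (toFinite _) (toFinite _)]
  · congr 1
    ext p
    simp only [mem_ofPred_eq, mem_union]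
    tauto
  · rw [disjoint_left] at h ⊢
    exact fun p hp hp' => h hp.1 hp'.1

theorem ec_union_right (h : Disjoint B B') : ec G A (B ∪ B') = ec G A B + ec G A B' := by
  rw [ec_symm, ec_union_left h, ec_symm, ec_symm G B' A]

theorem ec_union_left_le : ec G (A ∪ A') B ≤ ec G A B + ec G A' B := by
  have h1 : A ∪ A' = A ∪ (A' \ A) := by rw [union_sdiff_self]
  rw [h1, ec_union_left disjoint_sdiff_right]
  have := ec_mono_left (G := G) (B := B) (sdiff_subset : A' \ A ⊆ A')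
  omega

theorem ec_union_right_le : ec G A (B ∪ B') ≤ ec G A B + ec G A B' := by
  rw [ec_symm, ec_symm G A B, ec_symm G A B']
  exact ec_union_left_le

/-- Splitting the first set. -/
theorem ec_split_left (h : A ⊆ C) : ec G C B = ec G A B + ec G (C \ A) B := by
  rw [← ec_union_left disjoint_sdiff_right, union_sdiff_cancel h]

theorem ec_split_right (h : B ⊆ C) : ec G A C = ec G A B + ec G A (C \ B) := by
  rw [← ec_union_right disjoint_sdiff_right, union_sdiff_cancel h]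

theorem ec_eq_zero : ec G A B = 0 ↔ ∀ a ∈ A, ∀ b ∈ B, ¬ G.Adj a b := by
  unfold ec
  rw [ncard_eq_zero (toFinite _)]
  constructor
  · intro h a ha b hb hab
    have : (a, b) ∈ {p : V × V | p.1 ∈ A ∧ p.2 ∈ B ∧ G.Adj p.1 p.2} := ⟨ha, hb, hab⟩
    rw [h] at this
    exact this
  · intro h
    ext p
    constructor
    · intro hp
      exact absurd hp.2.2 (h _ hp.1 _ hp.2.1)
    · intro hp
      exact absurd hp (notMem_empty _)

theorem ec_pos : 1 ≤ ec G A B ↔ ∃ a ∈ A, ∃ b ∈ B, G.Adj a b := by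
  rw [Nat.one_le_iff_ne_zero, ne_eq, ec_eq_zero]
  push Not
  rfl

theorem ec_pos_of_adj (hx : x ∈ A) (hy : y ∈ B) (h : G.Adj x y) : 1 ≤ ec G A B :=
  ec_pos.2 ⟨x, hx, y, hy, h⟩

/-- Two different edges. -/
theorem two_le_ec (h1 : x ∈ A) (h2 : y ∈ B) (h3 : G.Adj x y) (h4 : u ∈ A) (h5 : v ∈ B)
    (h6 : G.Adj u v) (hne : x ≠ u ∨ y ≠ v) : 2 ≤ ec G A B := by
  unfold ec
  have h7 : ({(x, y), (u, v)} : Set (V × V)) ⊆
      {p : V × V | p.1 ∈ A ∧ p.2 ∈ B ∧ G.Adj p.1 p.2} := by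
    rintro p (rfl | hp)
    · exact ⟨h1, h2, h3⟩
    · rw [mem_singleton_iff] at hp
      subst hp
      exact ⟨h4, h5, h6⟩
  have h8 := ncard_le_ncard h7 (toFinite _)
  rwa [ncard_pair (by
    intro h
    simp only [Prod.mk.injEq] at h
    rcases hne with h' | h'
    · exact h' h.1
    · exact h' h.2)] at h8

theorem exists_two_edges (h : 2 ≤ ec G A B) : ∃ x ∈ A, ∃ y ∈ B, ∃ u ∈ A, ∃ v ∈ B,
    G.Adj x y ∧ G.Adj u v ∧ (x ≠ u ∨ y ≠ v) := by
  unfold ec at h
  obtain ⟨p, hp, q, hq, hne⟩ := (one_lt_ncard (toFinite _)).1 h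
  refine ⟨p.1, hp.1, p.2, hp.2.1, q.1, hq.1, q.2, hq.2.1, hp.2.2, hq.2.2, ?_⟩
  by_contra hcon
  push Not at hcon
  exact hne (Prod.ext hcon.1 hcon.2)

/-- If there is at most one edge, all edges are equal. -/
theorem ec_unique (h : ec G A B ≤ 1) (h1 : x ∈ A) (h2 : y ∈ B) (h3 : G.Adj x y) (h4 : u ∈ A)
    (h5 : v ∈ B) (h6 : G.Adj u v) : x = u ∧ y = v := by
  by_contra hcon
  have := two_le_ec h1 h2 h3 h4 h5 h6 (by tauto)
  omega

/-- The edges from `A` to `B` start in `A ∩ C`. -/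
theorem ec_eq_of_left (hAC : A ⊆ C) (h : ∀ a ∈ C, a ∉ A → ∀ b ∈ B, ¬ G.Adj a b) :
    ec G C B = ec G A B := by
  rw [ec_split_left hAC]
  have : ec G (C \ A) B = 0 := ec_eq_zero.2 (fun a ha b hb => h a ha.1 ha.2 b hb)
  omega

theorem ec_eq_of_right (hBC : B ⊆ C) (h : ∀ b ∈ C, b ∉ B → ∀ a ∈ A, ¬ G.Adj a b) :
    ec G A C = ec G A B := by
  rw [ec_symm, ec_symm G A B]
  exact ec_eq_of_left hBC (fun b hb hb' a ha hab => h b hb hb' a ha hab.symm)

theorem ec_singleton_self (v : V) : ec G {v} {v} = 0 := by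
  rw [ec_eq_zero]
  rintro a rfl b hb hab
  rw [mem_singleton_iff] at hb
  exact hab.ne hb.symm

/-- Out-edges of a union. -/
theorem ec_union_compl (h : Disjoint A A') :
    ec G (A ∪ A') (A ∪ A')ᶜ + 2 * ec G A A' = ec G A Aᶜ + ec G A' A'ᶜ := by
  have h1 : Aᶜ = A' ∪ (A ∪ A')ᶜ := by
    ext z
    have := disjoint_left.1 h
    simp only [mem_compl_iff, mem_union]
    have := @this z
    tauto
  have h2 : A'ᶜ = A ∪ (A ∪ A')ᶜ := by
    ext z
    have := disjoint_left.1 h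
    simp only [mem_compl_iff, mem_union]
    have := @this z
    tauto
  have h3 : Disjoint A' (A ∪ A')ᶜ := disjoint_left.2 (fun z hz hz' => hz' (Or.inr hz))
  have h4 : Disjoint A (A ∪ A')ᶜ := disjoint_left.2 (fun z hz hz' => hz' (Or.inl hz))
  have h5 : ec G A Aᶜ = ec G A A' + ec G A (A ∪ A')ᶜ := by
    conv_lhs => rw [h1]
    exact ec_union_right h3
  have h6 : ec G A' A'ᶜ = ec G A' A + ec G A' (A ∪ A')ᶜ := by
    conv_lhs => rw [h2]
    exact ec_union_right h4
  rw [ec_union_left h, h5, h6, ec_symm G A' A]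
  omega

/-- Out-edges of a subset inside of `D`. -/
theorem ec_sdiff_sdiff (hU : U ⊆ X) (hX : X ⊆ D) :
    ec G U (D \ U) = ec G U (X \ U) + ec G U (D \ X) := by
  rw [← ec_union_right]
  · congr 1
    ext z
    simp only [mem_sdiff, mem_union]
    have h1 := @hU z
    have h2 := @hX z
    tauto
  · rw [disjoint_left]
    exact fun z hz hz' => hz'.2 hz.1

/-! ### Connectivity by cuts -/

theorem Con.ec_pos (h : Con G C) (hU : U ⊆ C) (hne : U.Nonempty) (hne' : U ≠ C) :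
    1 ≤ ec G U (C \ U) := by
  obtain ⟨x, hx⟩ := hne
  obtain ⟨y, hy, hyU⟩ := exists_of_ssubset (hU.ssubset_of_ne hne')
  obtain ⟨a, ha, b, hb, h1, h2, h3⟩ := h.exists_edge hx (hU hx) hyU hy
  exact ec_pos_of_adj ha ⟨h2, hb⟩ h3

theorem con_of_ec (hne : C.Nonempty)
    (h : ∀ U ⊆ C, U.Nonempty → U ≠ C → 1 ≤ ec G U (C \ U)) : Con G C := by
  refine ⟨hne, fun x hx y hy => ?_⟩
  by_contra hcon
  have h1 := h (cmp G C x) cmp_subset ⟨x, mem_cmp_self hx⟩ (by
    intro h2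
    apply hcon
    have : y ∈ cmp G C x := by rw [h2]; exact hy
    exact this)
  obtain ⟨a, ha, b, hb, hab⟩ := ec_pos.1 h1
  exact hb.2 (cmp_closed ha hb.1 hab)

/-- No edges between a component and the rest. -/
theorem ec_cmp_rest : ec G (cmp G U x) (U \ cmp G U x) = 0 := by
  rw [ec_eq_zero]
  exact fun a ha b hb hab => hb.2 (cmp_closed ha hb.1 hab)

/-- If a connected set is cut along one edge, both sides are connected. -/
theorem Con.of_one (h : Con G C) (hU : U ⊆ C) (hne : U.Nonempty) (h1 : ec G U (C \ U) ≤ 1) :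
    Con G U := by
  refine con_of_ec hne fun U' hU' hne1 hne2 => ?_
  by_contra hcon
  have h0 : ec G U' (U \ U') = 0 := by omega
  have hn2 : (U \ U').Nonempty := by
    obtain ⟨z, hz, hz'⟩ := exists_of_ssubset (hU'.ssubset_of_ne hne2)
    exact ⟨z, hz, hz'⟩
  have h2 := h.ec_pos (hU'.trans hU) hne1 (by
    rintro rfl
    exact hne2 (hU'.antisymm hU))
  have h3 := h.ec_pos (U := U \ U') (sdiff_subset.trans hU) hn2 (by
    intro h4
    obtain ⟨z, hz⟩ := hne1
    have : z ∈ U \ U' := by rw [h4]; exact hU (hU' hz)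
    exact this.2 hz)
  rw [ec_sdiff_sdiff hU' hU] at h2
  rw [ec_sdiff_sdiff sdiff_subset hU] at h3
  have h4 : U \ (U \ U') = U' := by
    rw [sdiff_sdiff_cancel_left hU']
  rw [h4, ec_symm G (U \ U') U'] at h3
  have h5 := ec_split_left (G := G) (B := C \ U) hU'
  omega

theorem Con.of_one' (h : Con G C) (hU : U ⊆ C) (hne : U ≠ C) (h1 : ec G U (C \ U) ≤ 1) :
    Con G (C \ U) := by
  refine h.of_one sdiff_subset ?_ ?_
  · obtain ⟨z, hz, hz'⟩ := exists_of_ssubset (hU.ssubset_of_ne hne)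
    exact ⟨z, hz, hz'⟩
  · rw [sdiff_sdiff_cancel_left hU, ec_symm]
    exact h1

/-! ### 2-edge-connected sets -/

theorem E2.nonempty (h : E2 G Q) : Q.Nonempty := h.1

theorem E2.con (h : E2 G Q) : Con G Q :=
  con_of_ec h.1 fun U hU h1 h2 => (Nat.le_succ 1).trans (h.2 U hU h1 h2)

theorem e2_singleton (x : V) : E2 G {x} := by
  refine ⟨⟨x, rfl⟩, fun U hU h1 h2 => ?_⟩
  exact absurd (Nonempty.subset_singleton_iff h1 |>.1 hU) h2

/-- A subset which is split by `U` has two edges. -/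
theorem E2.two_le (h : E2 G Q) (h1 : (Q ∩ U).Nonempty) (h2 : (Q \ U).Nonempty) :
    2 ≤ ec G (Q ∩ U) (Q \ U) := by
  have h3 := h.2 (Q ∩ U) inter_subset_left h1 (by
    intro h4
    obtain ⟨z, hz, hz'⟩ := h2
    rw [inter_eq_left] at h4
    exact hz' (h4 hz))
  rwa [show Q \ (Q ∩ U) = Q \ U by rw [sdiff_self_inter]] at h3

/-- Adding a set all of whose parts have two edges to the rest. -/
theorem E2.union_of (h : E2 G Q) (hd : Disjoint Q U)
    (hU : ∀ U' ⊆ U, U'.Nonempty → 2 ≤ ec G U' (Q ∪ (U \ U'))) : E2 G (Q ∪ U) := by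
  refine ⟨h.1.mono subset_union_left, fun Z hZ h1 h2 => ?_⟩
  have hQU : ∀ Z' ⊆ U, (Q ∪ U) \ Z' = Q ∪ (U \ Z') := by
    intro Z' hZ'
    ext z
    have := @hZ' z
    have h3 : z ∈ Q → z ∉ U := fun h => disjoint_left.1 hd h
    simp only [mem_sdiff, mem_union]
    tauto
  by_cases h3 : (Q ∩ Z).Nonempty
  · by_cases h4 : (Q \ Z).Nonempty
    · exact (h.two_le h3 h4).trans (ec_mono inter_subset_right
        (sdiff_subset_sdiff_left subset_union_left))
    · have h5 : Q ⊆ Z := by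
        rwa [not_nonempty_iff_eq_empty, sdiff_eq_empty] at h4
      have h6 : (Q ∪ U) \ Z ⊆ U := by
        rintro z ⟨(hz | hz), hz'⟩
        · exact absurd (h5 hz) hz'
        · exact hz
      have h7 : ((Q ∪ U) \ Z).Nonempty := by
        obtain ⟨z, hz, hz'⟩ := exists_of_ssubset (hZ.ssubset_of_ne h2)
        exact ⟨z, hz, hz'⟩
      have h8 := hU _ h6 h7
      rw [← hQU _ h6, sdiff_sdiff_cancel_left hZ, ec_symm] at h8
      exact h8
  · have h6 : Z ⊆ U := by
      intro z hz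
      rcases hZ hz with h4 | h4
      · exact absurd ⟨z, h4, hz⟩ h3
      · exact h4
    rw [hQU _ h6]
    exact hU _ h6 h1

/-- Union of two 2-edge-connected sets with a common vertex. -/
theorem E2.union (hA : E2 G A) (hB : E2 G B) (h : (A ∩ B).Nonempty) : E2 G (A ∪ B) := by
  refine ⟨hA.1.mono subset_union_left, fun Z hZ h1 h2 => ?_⟩
  by_cases h3 : (A ∩ Z).Nonempty ∧ (A \ Z).Nonempty
  · exact (hA.two_le h3.1 h3.2).trans (ec_mono inter_subset_right
      (sdiff_subset_sdiff_left subset_union_left))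
  by_cases h4 : (B ∩ Z).Nonempty ∧ (B \ Z).Nonempty
  · exact (hB.two_le h4.1 h4.2).trans (ec_mono inter_subset_right
      (sdiff_subset_sdiff_left subset_union_right))
  exfalso
  obtain ⟨c, hcA, hcB⟩ := h
  by_cases hc : c ∈ Z
  · apply h2
    refine hZ.antisymm ?_
    rintro z (hz | hz)
    · by_contra hzZ
      exact h3 ⟨⟨c, hcA, hc⟩, ⟨z, hz, hzZ⟩⟩
    · by_contra hzZ
      exact h4 ⟨⟨c, hcB, hc⟩, ⟨z, hz, hzZ⟩⟩
  · obtain ⟨z, hz⟩ := h1
    rcases hZ hz with hz' | hz'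
    · exact h3 ⟨⟨z, hz', hz⟩, ⟨c, hcA, hc⟩⟩
    · exact h4 ⟨⟨z, hz', hz⟩, ⟨c, hcB, hc⟩⟩

/-- Adding an ear. -/
theorem E2.ear (hQ : E2 G Q) (hF : Con G F) (hd : Disjoint Q F) (h : 2 ≤ ec G F Q) :
    ∃ F' ⊆ F, Con G F' ∧ 2 ≤ ec G F' Q ∧ E2 G (Q ∪ F') := by
  obtain ⟨F', hF', hmin⟩ := (toFinite {F' : Set V | F' ⊆ F ∧ Con G F' ∧ 2 ≤ ec G F' Q}).exists_minimalFor
    ncard _ ⟨F, Subset.rfl, hF, h⟩
  obtain ⟨h1, h2, h3⟩ := hF'
  refine ⟨F', h1, h2, h3, hQ.union_of (hd.mono_right h1) fun U' hU' hne => ?_⟩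
  have hd' : Disjoint Q (F' \ U') := hd.mono_right (sdiff_subset.trans h1)
  rw [ec_union_right hd']
  by_contra hcon
  push Not at hcon
  by_cases hU : U' = F'
  · subst hU
    omega
  have h4 := h2.ec_pos hU' hne hU
  have h5 : ec G U' (F' \ U') = 1 := by omega
  have h6 : ec G U' Q = 0 := by omega
  have h7 := h2.of_one' hU' hU (by omega)
  have h8 : ec G (F' \ U') Q = ec G F' Q := by
    rw [ec_split_left (G := G) (B := Q) hU', h6, Nat.zero_add]
  have h9 := hmin ⟨sdiff_subset.trans h1, h7, by omega⟩ (by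
    show (F' \ U').ncard ≤ F'.ncard
    exact ncard_le_ncard sdiff_subset (toFinite _))
  have h10 : (F' \ U').ncard < F'.ncard := by
    refine ncard_lt_ncard (sdiff_subset.ssubset_of_ne ?_) (toFinite _)
    intro h11
    obtain ⟨z, hz⟩ := hne
    have : z ∈ F' \ U' := by rw [h11]; exact hU' hz
    exact this.2 hz
  have h11 : F'.ncard ≤ (F' \ U').ncard := h9
  omega

/-! ### Cubic graphs -/

theorem Cub.out_singleton (h : Cub G) (v : V) : ec G {v} {v}ᶜ = 3 := by
  have h1 := h.deg v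
  rw [ec_split_right (subset_univ ({v} : Set V)), ec_singleton_self, Nat.zero_add] at h1
  rwa [compl_eq_univ_sdiff]

theorem Cub.ec_le (h : Cub G) (v : V) (A : Set V) : ec G {v} A ≤ 3 := by
  rw [← h.deg v]
  exact ec_mono_right (subset_univ _)

/-- The edges of a vertex. -/
theorem Cub.ec_add (h : Cub G) (v : V) (A : Set V) : ec G {v} A + ec G {v} Aᶜ = 3 := by
  rw [← h.deg v, ec_split_right (subset_univ A), compl_eq_univ_sdiff]

theorem Cub.ec_add_add_le (h : Cub G) (v : V) (hAB : Disjoint A B) :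
    ec G {v} A + ec G {v} B ≤ 3 := by
  rw [← ec_union_right hAB]
  exact h.ec_le v _

theorem Cub.ec_add3_le (h : Cub G) (v : V) (hAB : Disjoint A B) (hAC : Disjoint A C)
    (hBC : Disjoint B C) : ec G {v} A + ec G {v} B + ec G {v} C ≤ 3 := by
  rw [← ec_union_right hAB, ← ec_union_right (disjoint_union_left.2 ⟨hAC, hBC⟩)]
  exact h.ec_le v _

theorem Cub.con_compl_singleton (h : Cub G) (q : V) (hne : ({q}ᶜ : Set V).Nonempty) :
    Con G {q}ᶜ := by
  refine con_of_ec hne fun U hU h1 h2 => ?_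
  by_contra hcon
  have h0 : ec G U ({q}ᶜ \ U) = 0 := by omega
  have hq : q ∉ U := fun hq => hU hq rfl
  have hn2 : ({q}ᶜ \ U).Nonempty := by
    obtain ⟨z, hz, hz'⟩ := exists_of_ssubset (hU.ssubset_of_ne h2)
    exact ⟨z, hz, hz'⟩
  have h3 := h.cut U h1 (by
    rintro rfl
    exact hq (mem_univ _))
  have h4 := h.cut ({q}ᶜ \ U) hn2 (by
    intro h5
    have : q ∈ ({q}ᶜ \ U : Set V) := by rw [h5]; exact mem_univ _
    exact this.1 rfl)
  have h5 : Uᶜ = ({q}ᶜ \ U) ∪ {q} := by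
    ext z
    simp only [mem_compl_iff, mem_union, mem_sdiff, mem_singleton_iff]
    constructor
    · intro hz
      by_cases hzq : z = q
      · exact Or.inr hzq
      · exact Or.inl ⟨hzq, hz⟩
    · rintro (hz | rfl)
      · exact hz.2
      · exact hq
  have h6 : ({q}ᶜ \ U)ᶜ = U ∪ {q} := by
    ext z
    simp only [mem_compl_iff, mem_union, mem_sdiff, mem_singleton_iff]
    tauto
  have h7 : ec G U Uᶜ = ec G U {q} := by
    rw [h5, ec_union_right (disjoint_left.2 (fun z hz hz' => hz.1 hz')), h0, Nat.zero_add]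
  have h8 : ec G ({q}ᶜ \ U) ({q}ᶜ \ U)ᶜ = ec G ({q}ᶜ \ U) {q} := by
    rw [h6, ec_union_right (disjoint_left.2 (fun z hz hz' => by
      rw [mem_singleton_iff] at hz'
      subst hz'
      exact hq hz)), ec_symm G ({q}ᶜ \ U) U, h0, Nat.zero_add]
  rw [h7, ec_symm] at h3
  rw [h8, ec_symm] at h4
  have h9 := h.ec_add_add_le q (A := U) (B := {q}ᶜ \ U) disjoint_sdiff_right
  omega

theorem Cub.con_univ [Nonempty V] (h : Cub G) : Con G (univ : Set V) := by
  refine con_of_ec univ_nonempty fun U _ h1 h2 => ?_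
  have := h.cut U h1 h2
  rw [compl_eq_univ_sdiff] at this
  omega

/-- The sides of a cut of three edges are 2-edge-connected. -/
theorem Cub.e2_of_three (h : Cub G) (hne : P.Nonempty) (h3 : ec G P Pᶜ = 3) : E2 G P := by
  refine ⟨hne, fun U hU h1 h2 => ?_⟩
  have hn2 : (P \ U).Nonempty := by
    obtain ⟨z, hz, hz'⟩ := exists_of_ssubset (hU.ssubset_of_ne h2)
    exact ⟨z, hz, hz'⟩
  have hne' : ∀ Z ⊆ P, Z ≠ univ := by
    rintro Z hZ rfl
    have : Pᶜ = ∅ := by
      rw [compl_empty_iff]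
      exact univ_subset_iff.1 hZ
    rw [this, ec_empty_right] at h3
    omega
  have h4 := h.cut U h1 (hne' U hU)
  have h5 := h.cut (P \ U) hn2 (hne' _ sdiff_subset)
  have h6 := ec_union_compl (G := G) (A := U) (A' := P \ U) disjoint_sdiff_right
  rw [union_sdiff_cancel hU] at h6
  omega

/-- A proper subset has at least three outgoing edges. -/
theorem Cub.three_le (h : Cub G) (h1 : x ∈ A) (h2 : y ∉ A) : 3 ≤ ec G A Aᶜ :=
  h.cut A ⟨x, h1⟩ (by
    rintro rfl
    exact h2 (mem_univ _))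

/-- A component of a set has at least two edges to the rest of a 2-edge-connected set. -/
theorem E2.two_le_cmp (h : E2 G D) (hU : U ⊆ D) (hx : x ∈ U) (hne : (D \ U).Nonempty) :
    2 ≤ ec G (cmp G U x) (D \ U) := by
  have hsub : cmp G U x ⊆ D := cmp_subset.trans hU
  have h1 := h.2 (cmp G U x) hsub ⟨x, mem_cmp_self hx⟩ (by
    obtain ⟨z, hz, hz'⟩ := hne
    intro h2
    rw [← h2] at hz
    exact hz' (cmp_subset hz))
  rw [ec_sdiff_sdiff cmp_subset hU, ec_cmp_rest, Nat.zero_add] at h1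
  exact h1

end Pool.Agent.Lib.MP_d9512b_co
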