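import Pool.Agent.Lib.MP_d9512b_co.Ear

set_option autoImplicit false

/-!
Interface: contractible subgraphs of cubic graphs. Everything is expressed by numbers of edges
between sets of vertices.
-/

namespace Pool.Agent.Lib.MP_d9512b_co

open Set

/-- The number of (ordered) edges from `A` to `B`. -/
noncomputable def ec {V : Type*} (G : SimpleGraph V) (A B : Set V) : ℕ :=
  {p : V × V | p.1 ∈ A ∧ p.2 ∈ B ∧ G.Adj p.1 p.2}.ncard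

/-- 2-edge-connected sets of vertices (a single vertex is allowed). -/
def E2 {V : Type*} (G : SimpleGraph V) (Q : Set V) : Prop :=
  Q.Nonempty ∧ ∀ U ⊆ Q, U.Nonempty → U ≠ Q → 2 ≤ ec G U (Q \ U)

/-- 3-edge-connected cubic graphs. -/
structure Cub {V : Type*} (G : SimpleGraph V) : Prop where
  deg : ∀ v, ec G {v} univ = 3
  cut : ∀ U : Set V, U.Nonempty → U ≠ univ → 3 ≤ ec G U Uᶜ

/-- Good sets for cubic graphs. -/
structure Gd {V : Type*} (G : SimpleGraph V) (n : ℕ) (S : Set V) : Prop where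
  card : S.ncard = n
  con : Con G S
  two : E2 G Sᶜ

/-! ### Growth -/

/-- The region `K` of `D` with the root edge at `a`; the rest `D \ K` stays. -/
structure Reg {V : Type*} (G : SimpleGraph V) (D K : Set V) (a : V) : Prop where
  sub : K ⊆ D
  mem : a ∈ K
  con : Con G K
  two : E2 G (D \ K)
  cut : ∀ U ⊆ K, U.Nonempty → a ∉ U → 3 ≤ ec G U (D \ U)
  cuta : ∀ U ⊆ K, a ∈ U → 2 ≤ ec G U (D \ U)
  deg : ∀ v ∈ K, v ≠ a → ec G {v} D = 3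
  dega : ec G {a} D = 2

/-- The states of a region. -/
structure Sta {V : Type*} (G : SimpleGraph V) (D K : Set V) (a : V) (X : Set V) : Prop where
  sub : X ⊆ K
  con : X = ∅ ∨ (Con G X ∧ a ∈ X)
  two : E2 G (D \ X)

/-- (S3a) The next state: `T` is a path of vertices with exactly one edge to `X` (for `X = ∅`
it is `{a}`). -/
def StStep : Prop :=
  ∀ (V : Type) [Finite V] (G : SimpleGraph V) (D K : Set V) (a : V) (X : Set V),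
    Reg G D K a → Sta G D K a X → X ≠ K →
    ∃ T ⊆ K \ X, T.Nonempty ∧ Sta G D K a (X ∪ T) ∧ ec G T (D \ (X ∪ T)) ≤ 2 ∧
      ∀ t ∈ T, ec G {t} (D \ X) ≤ 2

/-- (S3b) At least half of the sizes up to `n` occur. -/
def StGrow : Prop :=
  ∀ (V : Type) [Finite V] (G : SimpleGraph V) (D K : Set V) (a : V) (n : ℕ),
    Reg G D K a → n + 1 ≤ K.ncard →
    ∃ A : Finset ℕ, (∀ x ∈ A, x ≤ n ∧ ∃ X, Sta G D K a X ∧ X.ncard = x) ∧ n + 2 ≤ 2 * A.card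

/-! ### Junctions -/

/-- (S4) A bridge of `Qᶜ` with two large sides. -/
def StBridge : Prop :=
  ∀ (V : Type) [Finite V] (G : SimpleGraph V) (Q L R : Set V) (n : ℕ), Cub G → 1 ≤ n → E2 G Q →
    Disjoint Q L → Disjoint Q R → Disjoint L R → Q ∪ L ∪ R = univ → Con G L → Con G R →
    ec G L R = 1 → n + 1 ≤ L.ncard → n + 1 ≤ R.ncard → ∃ S, Gd G n S

/-- (S5) A cut of three edges with two large sides. -/
def StCut3 : Prop :=
  ∀ (V : Type) [Finite V] (G : SimpleGraph V) (P : Set V) (n : ℕ), Cub G → 1 ≤ n →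
    ec G P Pᶜ = 3 → n + 1 ≤ P.ncard → n + 1 ≤ Pᶜ.ncard → ∃ S, Gd G n S

/-! ### The far situation -/

/-- `Q` can not be enlarged without separating `x` and `y` in `Qᶜ`. -/
structure FarQ {V : Type*} (G : SimpleGraph V) (Q : Set V) (x y : V) : Prop where
  cub : Cub G
  two : E2 G Q
  hx : x ∉ Q
  hy : y ∉ Q
  ne : x ≠ y
  con : Con G Qᶜ
  one : ∀ F ⊆ Qᶜ, Con G F → x ∉ F → y ∉ F → Rc G (Qᶜ \ F) x y → ec G F Q ≤ 1

/-- (S6a) Existence of the far situation. -/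
def StFarQ : Prop :=
  ∀ (V : Type) [Finite V] (G : SimpleGraph V) (Q : Set V) (x y : V), Cub G → E2 G Q → x ≠ y →
    Rc G Qᶜ x y → ∃ Q', Q ⊆ Q' ∧ FarQ G Q' x y

/-- The part `W` of the chain `Qᶜ` between the bridges next to `L` and `R` (the sets `L`, `R`
may be empty). `xw`, `yw` are the ends of `W`. -/
structure Seg {V : Type*} (G : SimpleGraph V) (Q : Set V) (x y : V) (L R W : Set V) (xw yw : V) :
    Prop where
  cov : L ∪ R ∪ W = Qᶜ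
  dLR : Disjoint L R
  dLW : Disjoint L W
  dRW : Disjoint R W
  con : Con G W
  mx : xw ∈ W
  my : yw ∈ W
  LR : ec G L R = 0
  /-- the left end -/
  hL : (L = ∅ ∧ xw = x) ∨ (Con G L ∧ x ∈ L ∧ ec G L W = 1 ∧ ∃ l ∈ L, G.Adj l xw)
  hR : (R = ∅ ∧ yw = y) ∨ (Con G R ∧ y ∈ R ∧ ec G R W = 1 ∧ ∃ r ∈ R, G.Adj r yw)
  /-- no bridge between the ends -/
  nob : ∀ U ⊆ W, xw ∈ U → yw ∉ U → 2 ≤ ec G U (W \ U)

/-- (S6b) The large segment. -/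
def StSeg : Prop :=
  ∀ (V : Type) [Finite V] (G : SimpleGraph V) (Q : Set V) (x y : V) (n : ℕ), FarQ G Q x y →
    1 ≤ n → 3 * n + 1 ≤ (Qᶜ : Set V).ncard →
    (∃ S, Gd G n S) ∨ ∃ L R W xw yw, Seg G Q x y L R W xw yw ∧ L.ncard ≤ n ∧ R.ncard ≤ n ∧
      n + 1 ≤ W.ncard

/-- Webs: four outgoing edges at `x1`, `y1`, `x2`, `y2`, no bridge between `x1` and `x2`, no
crossing. -/
structure CWeb {V : Type*} (G : SimpleGraph V) (W : Set V) (x1 x2 y1 y2 : V) : Prop where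
  cub : Cub G
  con : Con G W
  m1 : x1 ∈ W
  m2 : x2 ∈ W
  m3 : y1 ∈ W
  m4 : y2 ∈ W
  nd : x1 ≠ x2 ∧ x1 ≠ y1 ∧ x1 ≠ y2 ∧ x2 ≠ y1 ∧ x2 ≠ y2 ∧ y1 ≠ y2
  four : ec G W Wᶜ = 4
  o1 : ec G {x1} Wᶜ = 1
  o2 : ec G {x2} Wᶜ = 1
  o3 : ec G {y1} Wᶜ = 1
  o4 : ec G {y2} Wᶜ = 1
  nob : ∀ U ⊆ W, x1 ∈ U → x2 ∉ U → 2 ≤ ec G U (W \ U)
  nox : ∀ F F' : Set V, F ⊆ W → F' ⊆ W → Con G F → Con G F' → Disjoint F F' →
    x1 ∈ F → x2 ∈ F → y1 ∈ F' → y2 ∈ F' → False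

/-- (S7) A segment with at least two vertices has at most four outgoing edges; if there are four,
it is a web, and the edges at `y1`, `y2` go to `Q`. -/
def StFour : Prop :=
  ∀ (V : Type) [Finite V] (G : SimpleGraph V) (Q : Set V) (x y : V) (L R W : Set V) (xw yw : V),
    FarQ G Q x y → Seg G Q x y L R W xw yw → 2 ≤ W.ncard →
    ec G W Wᶜ ≤ 3 ∨ ∃ y1 y2, CWeb G W xw yw y1 y2 ∧ ec G {y1} Q = 1 ∧ ec G {y2} Q = 1

/-- (S8) Both pairings exist in a web. -/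
def StPair : Prop :=
  ∀ (V : Type) [Finite V] (G : SimpleGraph V) (W : Set V) (x1 x2 y1 y2 : V),
    CWeb G W x1 x2 y1 y2 → ∃ P P' : Set V, P ⊆ W ∧ P' ⊆ W ∧ Con G P ∧ Con G P' ∧
      Disjoint P P' ∧ x1 ∈ P ∧ y1 ∈ P ∧ x2 ∈ P' ∧ y2 ∈ P'

/-- (S9) Linking in `Q \ O`. -/
def StLinkQ : Prop :=
  ∀ (V : Type) [Finite V] (G : SimpleGraph V) (Q O : Set V) (p1 p2 r1 r2 : V), Cub G → E2 G Q →
    O ⊆ Q → O.Nonempty → p1 ∈ Q \ O → p2 ∈ Q \ O → p1 ≠ p2 → r1 ∈ Q \ O → r2 ∈ Q \ O → r1 ≠ r2 →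
    (∀ v ∈ Q \ O, v ≠ r1 → v ≠ r2 → ec G {v} O = 0) →
    ∃ P P' : Set V, P ⊆ Q \ O ∧ P' ⊆ Q \ O ∧ Con G P ∧ Con G P' ∧ Disjoint P P' ∧
      ((p1 ∈ P ∧ r1 ∈ P ∧ p2 ∈ P' ∧ r2 ∈ P') ∨ (p1 ∈ P ∧ r2 ∈ P ∧ p2 ∈ P' ∧ r1 ∈ P'))

/-- (S10) The ends `x1` and `y1` of a web are close to each other. -/
def StClose : Prop :=
  ∀ (V : Type) [Finite V] (G : SimpleGraph V) (W : Set V) (x1 x2 y1 y2 : V) (n : ℕ), 1 ≤ n →
    CWeb G W x1 x2 y1 y2 → E2 G Wᶜ → n + 1 ≤ (Wᶜ : Set V).ncard →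
    (∃ S, Gd G n S) ∨ ∃ H, Con G H ∧ x1 ∈ H ∧ y1 ∈ H ∧ H.ncard ≤ 3 * n

/-- (S11a) Two vertices at large distance, both with a neighbour in `Q`. -/
def StFarAdj : Prop :=
  ∀ (V : Type) [Finite V] (G : SimpleGraph V) (Q : Set V) (x y : V) (n : ℕ), 1 ≤ n → Cub G →
    E2 G Q → x ≠ y → Rc G Qᶜ x y → (∃ q ∈ Q, G.Adj x q) → (∃ q ∈ Q, G.Adj y q) →
    (∀ C, Con G C → x ∈ C → y ∈ C → 8 * n + 3 ≤ C.ncard) → ∃ S, Gd G n S

/-- (S11b) The corner lemma: `W` has three outgoing edges, at `b`, `f`, `c`. -/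
def StCorner : Prop :=
  ∀ (V : Type) [Finite V] (G : SimpleGraph V) (W : Set V) (a b f c : V), Cub G →
    ec G W Wᶜ = 3 → a ∈ W → b ∈ W → f ∈ W → c ∈ W → a ≠ b → a ≠ f → a ≠ c → b ≠ f → b ≠ c →
    f ≠ c → ec G {b} Wᶜ = 1 → ec G {f} Wᶜ = 1 → ec G {c} Wᶜ = 1 →
    ∃ M ⊆ W, Con G M ∧ b ∈ M ∧ a ∉ M ∧ f ∉ M ∧ c ∉ M ∧ Con G (W \ M) ∧ ∃ a' ∈ M, G.Adj a a'

/-- (S11c) Two vertices at large distance. -/
def StFarCub : Prop :=
  ∀ (V : Type) [Finite V] (G : SimpleGraph V) (x y : V) (n : ℕ), 1 ≤ n → Cub G →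
    (∀ C, Con G C → x ∈ C → y ∈ C → 9 * n + 5 ≤ C.ncard) → ∃ S, Gd G n S

/-- (S12) The result for `Cub` graphs. -/
def StCubAll : Prop :=
  ∀ n : ℕ, 1 ≤ n → ∃ N : ℕ, ∀ (V : Type) [Finite V] (G : SimpleGraph V), Cub G →
    N ≤ Nat.card V → ∃ S, Gd G n S

end Pool.Agent.Lib.MP_d9512b_co
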