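import Pool.Agent.Lib.MP_d9512b_co.Cub.Base
import Pool.Agent.Lib.MP_d9512b_co.Ball
import Pool.Agent.Lib.MP_d9512b_co.Final

set_option autoImplicit false
set_option linter.unusedSectionVars false

/-!
Contractible subgraphs of cubic graphs: the theorem from the far case.
-/

namespace Pool.Agent.Lib.MP_d9512b_co

open Set

section

variable {V : Type*} [Finite V] {G : SimpleGraph V}

/-- The number of edges at a vertex is the number of neighbours. -/
theorem ec_singleton_eq (v : V) (A : Set V) : ec G {v} A = {w | w ∈ A ∧ G.Adj v w}.ncard := by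
  unfold ec
  refine ncard_congr (fun p _ => p.2) ?_ ?_ ?_
  · rintro ⟨a, b⟩ ⟨h1, h2, h3⟩
    rw [mem_singleton_iff] at h1
    subst h1
    exact ⟨h2, h3⟩
  · rintro ⟨a, b⟩ ⟨c, d⟩ h1 h2 h
    have h3 : a = v := h1.1
    have h4 : c = v := h2.1
    exact Prod.ext (h3.trans h4.symm) h
  · rintro w ⟨h1, h2⟩
    exact ⟨(v, w), ⟨rfl, h1, h2⟩, rfl⟩

theorem Cub.ncard_nb_le (h : Cub G) (x : V) : (Nb G {x}).ncard ≤ 3 := by
  have h1 := h.deg x
  rw [ec_singleton_eq] at h1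
  rw [← h1]
  refine ncard_le_ncard ?_ (toFinite _)
  rintro w ⟨-, c, hc, hcw⟩
  rw [mem_singleton_iff] at hc
  subst hc
  exact ⟨mem_univ _, hcw⟩

/-- Large cubic graphs have two vertices at large distance. -/
theorem Cub.exists_far (h : Cub G) (m : ℕ) (hc : 4 ^ m < Nat.card V) :
    ∃ u v, ∀ C, Con G C → u ∈ C → v ∈ C → m ≤ C.ncard := by
  have hpos : 0 < Nat.card V := (Nat.zero_le _).trans_lt hc
  obtain ⟨⟨u⟩, -⟩ := Nat.card_pos_iff.1 hpos
  have : Nonempty V := ⟨u⟩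
  have h1 := ball_card u 3 (fun x => h.con_univ.2 u (mem_univ _) x (mem_univ _))
    h.ncard_nb_le m
  obtain ⟨v, hv⟩ : ∃ v, v ∉ {x | lv G u x ≤ m + 1} := by
    by_contra hcon
    push Not at hcon
    have h2 : {x | lv G u x ≤ m + 1} = univ := eq_univ_of_forall hcon
    rw [h2, ncard_univ] at h1
    have h3 : (3 + 1) ^ m = 4 ^ m := rfl
    omega
  refine ⟨u, v, fun C hC hu hv' => ?_⟩
  have h2 := lv_le hC hu hv'
  rw [mem_ofPred_eq] at hv
  omega

/-- Good sets for cubic graphs are good. -/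
theorem Gd.good {n : ℕ} {S : Set V} (hG : Cub G) (h : Gd G n S) (h3 : 3 ≤ Sᶜ.ncard) :
    Good G n S := by
  refine ⟨h.card, h.con, ⟨h.two.con, fun y hy a ha b hb hay hby => ?_⟩, h3⟩
  by_contra hcon
  set U := cmp G (Sᶜ \ {y}) a with hU
  have haU : a ∈ U := mem_cmp_self ⟨ha, hay⟩
  have hbU : b ∉ U := hcon
  have hUS : U ⊆ Sᶜ \ {y} := cmp_subset
  have hyU : y ∉ U := fun e => (hUS e).2 rfl
  set W := (Sᶜ \ {y}) \ U with hW
  have hbW : b ∈ W := ⟨⟨hb, hby⟩, hbU⟩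
  have h0 : ec G U W = 0 := ec_cmp_rest
  have e1 : Sᶜ \ U = W ∪ {y} := by
    ext z
    rw [hW]
    simp only [mem_sdiff, mem_union, mem_singleton_iff]
    constructor
    · rintro ⟨h1, h2⟩
      by_cases hz : z = y
      · exact Or.inr hz
      · exact Or.inl ⟨⟨h1, hz⟩, h2⟩
    · rintro (⟨⟨h1, -⟩, h2⟩ | rfl)
      · exact ⟨h1, h2⟩
      · exact ⟨hy, hyU⟩
  have e2 : Sᶜ \ W = U ∪ {y} := by
    ext z
    rw [hW]
    simp only [mem_sdiff, mem_union, mem_singleton_iff]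
    constructor
    · rintro ⟨h1, h2⟩
      by_cases hz : z = y
      · exact Or.inr hz
      · left
        by_contra hzU
        exact h2 ⟨⟨h1, hz⟩, hzU⟩
    · rintro (h1 | rfl)
      · exact ⟨(hUS h1).1, fun h2 => h2.2 h1⟩
      · exact ⟨hy, fun h2 => h2.1.2 rfl⟩
  have h1 := h.two.2 U (fun z hz => (hUS hz).1) ⟨a, haU⟩ (by
    intro e
    rw [e] at hyU
    exact hyU hy)
  have h2 := h.two.2 W (fun z hz => hz.1.1) ⟨b, hbW⟩ (by
    intro e
    have h4 : y ∈ W := by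
      rw [e]
      exact hy
    exact h4.1.2 rfl)
  rw [e1] at h1
  rw [e2] at h2
  have h4 := ec_union_right_le (G := G) (A := U) (B := W) (B' := {y})
  have h5 := ec_union_right_le (G := G) (A := W) (B := U) (B' := {y})
  rw [ec_symm G W U] at h5
  have h6 := hG.ec_add_add_le y (A := U) (B := W) (by
    rw [disjoint_left]
    exact fun z hz hz' => hz'.2 hz)
  rw [ec_symm G {y} U, ec_symm G {y} W] at h6
  omega

/-- The ends of the edges from `A` to `B`. -/
theorem ncard_ends_le (A B : Set V) : {a | a ∈ A ∧ ∃ b ∈ B, G.Adj a b}.ncard ≤ ec G A B := by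
  have h1 : {a | a ∈ A ∧ ∃ b ∈ B, G.Adj a b} ⊆
      Prod.fst '' {p : V × V | p.1 ∈ A ∧ p.2 ∈ B ∧ G.Adj p.1 p.2} := by
    rintro a ⟨ha, b, hb, hab⟩
    exact ⟨(a, b), ⟨ha, hb, hab⟩, rfl⟩
  exact (ncard_le_ncard h1 (toFinite _)).trans (ncard_image_le (toFinite _))

/-- A side of a small cut consists of ends of its edges. -/
theorem ncard_le_of_cut (hcn : ∀ X : Set V, X.ncard ≤ 2 → ∀ a b, a ∉ X → b ∉ X → Rc G Xᶜ a b)
    {U : Set V} (hne : U ≠ univ) (h : ec G U Uᶜ ≤ 2) : U.ncard ≤ 2 := by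
  have h1 := (ncard_ends_le (G := G) U Uᶜ).trans h
  refine (ncard_le_ncard ?_ (toFinite _)).trans h1
  by_contra hcon
  obtain ⟨u, hu, huX⟩ := not_subset.1 hcon
  obtain ⟨w, hw⟩ := (ne_univ_iff_exists_notMem U).1 hne
  obtain ⟨a, haU, b, hbU, haX, -, hab, -⟩ :=
    (hcn _ h1 u w huX (fun e => hw e.1)).exists_edge (X := U) hu hw
  exact haX ⟨haU, b, hbU, hab⟩

/-- 3-connected cubic graphs with at least five vertices. -/
theorem cub_of_cn (hcn : ∀ X : Set V, X.ncard ≤ 2 → ∀ a b, a ∉ X → b ∉ X → Rc G Xᶜ a b)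
    (hdeg : ∀ v, ec G {v} univ = 3) (h5 : 5 ≤ Nat.card V) : Cub G := by
  refine ⟨hdeg, fun U hne hne' => ?_⟩
  by_contra hcon
  have h1 : ec G U Uᶜ ≤ 2 := by omega
  have h2 := ncard_le_of_cut hcn hne' h1
  have h3 := ncard_le_of_cut hcn (U := Uᶜ) (by
    intro e
    obtain ⟨z, hz⟩ := hne
    have h4 : z ∈ Uᶜ := by
      rw [e]
      exact mem_univ z
    exact h4 hz) (by
    rw [compl_compl, ec_symm]
    exact h1)
  have h4 := ncard_add_ncard_compl U
  omega

end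

/-- Large cubic 3-edge-connected graphs. -/
theorem stCubAll_of (h : StFarCub) : StCubAll := by
  intro n hn
  refine ⟨4 ^ (9 * n + 5) + 1, fun V _ G hG hc => ?_⟩
  obtain ⟨u, v, huv⟩ := hG.exists_far (9 * n + 5) (by omega)
  exact h V G u v n hn hG huv

/-- The final theorem from the far case. -/
theorem cubic_of (hF : StFarCub) : ∀ n : ℕ, 1 ≤ n → ∃ N : ℕ,
    ∀ (V : Type) [Fintype V] [DecidableEq V] (G : SimpleGraph V) [DecidableRel G.Adj],
    N ≤ Fintype.card V → (∀ v, G.degree v = 3) →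
    (4 ≤ Fintype.card V ∧
      ∀ X : Finset V, X.card ≤ 2 → (G.induce ((↑X : Set V)ᶜ)).Connected) →
    ∃ S : Finset V, ∃ s0 ∈ S, S.card = n ∧ (G.induce (↑S : Set V)).Connected ∧
      (4 ≤ (insert s0 ((↑S : Set V)ᶜ)).ncard ∧
        ∀ X : Finset V, X.card ≤ 2 →
          ((SimpleGraph.fromRel (fun x y : V => ∃ a b, G.Adj a b ∧
              (if a ∈ S then s0 else a) = x ∧ (if b ∈ S then s0 else b) = y)).induce
            (insert s0 ((↑S : Set V)ᶜ) \ (↑X : Set V))).Connected) := by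
  intro n hn
  obtain ⟨N, hN⟩ := stCubAll_of hF n hn
  refine ⟨N + n + 5, fun V _ _ G _ hc hdeg ⟨h6, hcon⟩ => ?_⟩
  have hcn : ∀ X : Set V, X.ncard ≤ 2 → ∀ a b, a ∉ X → b ∉ X → Rc G Xᶜ a b := by
    intro X hX a b ha hb
    have h1 := hcon X.toFinite.toFinset (by rwa [← Set.ncard_eq_toFinset_card X X.toFinite])
    rw [Set.Finite.coe_toFinset] at h1
    exact rc_of_reachable ⟨a, ha⟩ ⟨b, hb⟩ (h1.preconnected _ _)
  have hd : ∀ v, ec G {v} univ = 3 := by
    intro v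
    rw [ec_singleton_eq, ← hdeg v, ← SimpleGraph.card_neighborFinset_eq_degree,
      ← ncard_coe_finset]
    congr 1
    ext w
    simp
  have hcard : Nat.card V = Fintype.card V := Nat.card_eq_fintype_card
  have hG : Cub G := cub_of_cn hcn hd (by omega)
  obtain ⟨S, hS⟩ := hN V G hG (by omega)
  have hS3 : 3 ≤ Sᶜ.ncard := by
    have h1 := ncard_add_ncard_compl S
    have h2 := hS.card
    omega
  have hSG := hS.good hG hS3
  have hSS : ((S.toFinite.toFinset : Finset V) : Set V) = S := Set.Finite.coe_toFinset _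
  obtain ⟨s0, hs0⟩ := hSG.con.1
  refine ⟨S.toFinite.toFinset, s0, by simpa using hs0, ?_, ?_, ?_⟩
  · rw [← Set.ncard_eq_toFinset_card S S.toFinite]
    exact hSG.card
  · rw [hSS]
    exact connected_of_con hSG.con
  · exact contract_of_good hcn (by rwa [hSS]) (by simpa using hs0)

end Pool.Agent.Lib.MP_d9512b_co
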